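import Mathlib.Analysis.Convex.Topology
import Mathlib.Analysis.Normed.Group.Basic
import Mathlib.Analysis.Normed.Group.Constructions
import Mathlib.Topology.Instances.Rat
import Mathlib.Data.Set.Card
import Mathlib.Algebra.Group.Pointwise.Set.Basic
import Mathlib.Analysis.Normed.Module.Convex

/-!
MP_c39918_co.  A convex body `K` in `ℝ^d` is determined by the real Ehrhart functions of its
integer translates.
-/

namespace Pool.Agent.Results.MP_c39918_co.Reconstruction

open scoped Pointwise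

/-- The real Ehrhart function `L_K(s) = #(sK ∩ ℤ^d)`. -/
noncomputable def realEhrhart {d : ℕ} (K : Set (Fin d → ℝ)) (s : ℝ) : ℕ∞ :=
  Set.encard {z : Fin d → ℤ | (fun i => (z i : ℝ)) ∈ s • K}

/-- The translate `K + w` of `K` by the integer vector `w`. -/
def translate {d : ℕ} (K : Set (Fin d → ℝ)) (w : Fin d → ℤ) : Set (Fin d → ℝ) :=
  {y | ∃ x ∈ K, y = x + fun i => (w i : ℝ)}

/-- A convex body: a compact convex set with nonempty interior. -/
def IsConvexBody {d : ℕ} (K : Set (Fin d → ℝ)) : Prop :=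
  IsCompact K ∧ Convex ℝ K ∧ (interior K).Nonempty

/-- membership of a lattice point in `s(K+w)` -/
theorem mem_iff {d : ℕ} (K : Set (Fin d → ℝ)) (t : ℝ) (ht : 0 < t) (w z : Fin d → ℤ) :
    (fun i => (z i : ℝ)) ∈ t⁻¹ • translate K w ↔ (fun i => t * (z i : ℝ) - (w i : ℝ)) ∈ K := by
  constructor
  · rintro ⟨y, ⟨x, hx, rfl⟩, hy⟩
    convert hx using 1
    funext i
    have := congrFun hy i
    simp only [Pi.smul_apply, Pi.add_apply, smul_eq_mul] at this
    rw [← this]
    field_simp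
    ring
  · intro h
    refine ⟨_, ⟨_, h, rfl⟩, ?_⟩
    funext i
    simp only [Pi.smul_apply, Pi.add_apply, smul_eq_mul]
    field_simp
    ring

/-- The key step: far away integer translates and small scalings detect membership of a
point `θ p` (`p` integral). -/
theorem detect {d : ℕ} (K : Set (Fin d → ℝ)) (R : ℝ) (hR : ∀ x ∈ K, ‖x‖ ≤ R)
    (p : Fin d → ℤ) (θ : ℝ) (hθ : 0 ≤ θ) (N : ℕ) (hN : 0 < N)
    (hNR : R + ‖fun i => θ * (p i : ℝ)‖ < N) :
    realEhrhart (translate K (fun i => N * p i)) ((N : ℝ) + θ)⁻¹ ≠ 0 ↔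
      (fun i => θ * (p i : ℝ)) ∈ K := by
  have hNpos : (0 : ℝ) < N := by exact_mod_cast hN
  have ht : (0 : ℝ) < (N : ℝ) + θ := by linarith
  rw [realEhrhart, Set.encard_ne_zero]
  constructor
  · rintro ⟨z, hz⟩
    have hz' := (mem_iff K _ ht _ z).1 hz
    by_cases hzp : z = p
    · subst hzp
      convert hz' using 1
      funext i
      push_cast
      ring
    · exfalso
      obtain ⟨i, hi⟩ := Function.ne_iff.1 hzp
      have h1 := hR _ hz'
      have h2 := norm_le_pi_norm (fun i => ((N : ℝ) + θ) * (z i : ℝ) - ((N * p i : ℤ) : ℝ)) i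
      have h3 := norm_le_pi_norm (fun i => θ * (p i : ℝ)) i
      simp only [Real.norm_eq_abs] at h2 h3
      have h4 : (1 : ℝ) ≤ |(z i : ℝ) - (p i : ℝ)| := by
        have : (1 : ℤ) ≤ |z i - p i| := Int.one_le_abs (sub_ne_zero.2 hi)
        exact_mod_cast this
      have h5 : ((N : ℝ) + θ) * (z i : ℝ) - ((N * p i : ℤ) : ℝ)
          = ((N : ℝ) + θ) * ((z i : ℝ) - (p i : ℝ)) + θ * (p i : ℝ) := by
        push_cast; ring
      rw [h5] at h2
      have h6 : |((N : ℝ) + θ) * ((z i : ℝ) - (p i : ℝ))|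
          ≤ |((N : ℝ) + θ) * ((z i : ℝ) - (p i : ℝ)) + θ * (p i : ℝ)| + |θ * (p i : ℝ)| := by
        have := abs_sub (((N : ℝ) + θ) * ((z i : ℝ) - (p i : ℝ)) + θ * (p i : ℝ)) (θ * (p i : ℝ))
        simpa using this
      rw [abs_mul, abs_of_pos ht] at h6
      have h7 : (N : ℝ) + θ ≤ ((N : ℝ) + θ) * |(z i : ℝ) - (p i : ℝ)| := by
        nlinarith
      linarith
  · intro h
    refine ⟨p, (mem_iff K _ ht _ p).2 ?_⟩
    convert h using 1
    funext i
    push_cast
    ring

/-- every rational vector is of the form `θ p` with `p` integral -/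
theorem rat_form {d : ℕ} (x : Fin d → ℚ) :
    ∃ (p : Fin d → ℤ) (θ : ℝ), 0 ≤ θ ∧ (fun i => (x i : ℝ)) = fun i => θ * (p i : ℝ) := by
  classical
  let q : ℕ := ∏ i, (x i).den
  have hq : (q : ℝ) ≠ 0 := by
    have : q ≠ 0 := Finset.prod_ne_zero_iff.2 (fun i _ => (x i).den_ne_zero)
    exact_mod_cast this
  refine ⟨fun i => (x i).num * ((q / (x i).den : ℕ) : ℤ), (q : ℝ)⁻¹, by positivity, ?_⟩
  funext i
  have hdvd : (x i).den ∣ q := Finset.dvd_prod_of_mem _ (Finset.mem_univ i)
  obtain ⟨c, hc⟩ := hdvd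
  have hden : ((x i).den : ℝ) ≠ 0 := by exact_mod_cast (x i).den_ne_zero
  have hcdiv : q / (x i).den = c := by
    rw [hc]; exact Nat.mul_div_cancel_left c (Nat.pos_of_ne_zero (x i).den_ne_zero)
  change (x i : ℝ) = (q : ℝ)⁻¹ * (((x i).num * ((q / (x i).den : ℕ) : ℤ) : ℤ) : ℝ)
  rw [hcdiv]
  have hx : (x i : ℝ) = (x i).num / (x i).den := by
    exact_mod_cast (congrArg (fun r : ℚ => (r : ℝ)) (Rat.num_div_den (x i))).symm
  have hqr : (q : ℝ) = (x i).den * c := by exact_mod_cast hc
  have hcne : (c : ℝ) ≠ 0 := by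
    intro h0; rw [h0, mul_zero] at hqr; exact hq hqr
  rw [hx, hqr]
  push_cast
  field_simp

/-- one inclusion, for bounded sets -/
theorem rat_mem {d : ℕ} (K H : Set (Fin d → ℝ)) (hK : Bornology.IsBounded K)
    (hH : Bornology.IsBounded H)
    (h : ∀ s : ℝ, 0 < s → ∀ w : Fin d → ℤ,
      realEhrhart (translate K w) s = realEhrhart (translate H w) s)
    (x : Fin d → ℚ) : (fun i => (x i : ℝ)) ∈ K ↔ (fun i => (x i : ℝ)) ∈ H := by
  obtain ⟨p, θ, hθ, hx⟩ := rat_form x
  obtain ⟨R1, hR1⟩ := hK.exists_norm_le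
  obtain ⟨R2, hR2⟩ := hH.exists_norm_le
  obtain ⟨N, hN⟩ := exists_nat_gt (max (max R1 R2 + ‖fun i => θ * (p i : ℝ)‖) 0)
  have hNpos : 0 < N := by
    have := lt_of_le_of_lt (le_max_right _ _) hN
    exact_mod_cast this
  have hN' := lt_of_le_of_lt (le_max_left _ _) hN
  have hNr : (0 : ℝ) < N := by exact_mod_cast hNpos
  rw [hx]
  rw [← detect K R1 hR1 p θ hθ N hNpos (by
      have := le_max_left R1 R2; linarith),
    ← detect H R2 hR2 p θ hθ N hNpos (by
      have := le_max_right R1 R2; linarith),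
    h _ (by positivity)]

theorem dense_rat (d : ℕ) : DenseRange (fun (x : Fin d → ℚ) => fun i => (x i : ℝ)) :=
  DenseRange.piMap (fun _ => Rat.denseRange_cast)

theorem subset_of {d : ℕ} (K H : Set (Fin d → ℝ)) (hK : IsConvexBody K) (hH : IsConvexBody H)
    (h : ∀ s : ℝ, 0 < s → ∀ w : Fin d → ℤ,
      realEhrhart (translate K w) s = realEhrhart (translate H w) s) : K ⊆ H := by
  have h1 : K = closure (interior K) := by
    rw [hK.2.1.closure_interior_eq_closure_of_nonempty_interior hK.2.2,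
      hK.1.isClosed.closure_eq]
  have h2 : interior K ⊆ closure (interior K ∩ Set.range (fun (x : Fin d → ℚ) => fun i => (x i : ℝ))) :=
    (dense_rat d).open_subset_closure_inter isOpen_interior
  have h3 : interior K ∩ Set.range (fun (x : Fin d → ℚ) => fun i => (x i : ℝ)) ⊆ H := by
    rintro _ ⟨hy, x, rfl⟩
    exact (rat_mem K H hK.1.isBounded hH.1.isBounded h x).1 (interior_subset hy)
  calc K = closure (interior K) := h1
    _ ⊆ closure (closure (interior K ∩ Set.range
        (fun (x : Fin d → ℚ) => fun i => (x i : ℝ)))) := closure_mono h2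
    _ ⊆ H := by
      rw [closure_closure]
      exact closure_minimal h3 hH.1.isClosed

/-- **Q1 (positive answer).** If `K`, `H` are convex bodies in `ℝ^d` with
`L_{K+w}(s) = L_{H+w}(s)` for all real `s > 0` and all `w ∈ ℤ^d`, then `K = H`. -/
theorem result (d : ℕ) (K H : Set (Fin d → ℝ)) (hK : IsConvexBody K) (hH : IsConvexBody H)
    (h : ∀ s : ℝ, 0 < s → ∀ w : Fin d → ℤ,
      realEhrhart (translate K w) s = realEhrhart (translate H w) s) : K = H :=
  Set.Subset.antisymm (subset_of K H hK hH h)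
    (subset_of H K hH hK (fun s hs w => (h s hs w).symm))

end Pool.Agent.Results.MP_c39918_co.Reconstruction
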